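import Pool.Agent.MWA.StmtsP

/-!
# Row mwa HAP: heavy blocks absorb, arbitrary period (port of HAB, helper27)
-/

set_option autoImplicit false

namespace Pool.Agent.MWA.H85

open Pool.Agent.Helper14_MV Pool.Agent.Helper2_MV Pool.Agent.MVO Pool.Agent.MWL Pool.Agent.MWS
open Pool.Agent.MWA

theorem rep_add {n : ℕ} {θ : FIC} (h : RR θ [0, 0] (List.replicate (n + 2) 0)) (p m : ℕ)
    (hp : 2 ≤ p) : RR θ (List.replicate p 0) (List.replicate (p + m * n) 0) := by
  induction m with
  | zero => simpa using RR.refl (β := θ) (List.replicate p 0)
  | succ m ih =>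
    have h1 : RR θ ([0, 0] ++ List.replicate (p - 2 + m * n) 0)
        (List.replicate (n + 2) 0 ++ List.replicate (p - 2 + m * n) 0) :=
      h.append (RR.refl (β := θ) _)
    have e1 : ([0, 0] ++ List.replicate (p - 2 + m * n) 0 : List ℕ)
        = List.replicate (p + m * n) 0 := by
      have : ([0, 0] : List ℕ) = List.replicate 2 0 := rfl
      rw [this, List.replicate_append_replicate]
      congr 1
      omega
    have e2 : (List.replicate (n + 2) 0 ++ List.replicate (p - 2 + m * n) 0 : List ℕ)
        = List.replicate (p + (m + 1) * n) 0 := by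
      rw [List.replicate_append_replicate]
      congr 1
      have : (m + 1) * n = m * n + n := by ring
      omega
    rw [e1, e2] at h1
    exact θ.trans ih h1

theorem rep_mod {n : ℕ} {θ : FIC} (h : RR θ [0, 0] (List.replicate (n + 2) 0)) {p q : ℕ}
    (hp : 2 ≤ p) (hq : 2 ≤ q) (hm : p ≡ q [MOD n]) :
    RR θ (List.replicate p 0) (List.replicate q 0) := by
  rcases le_total p q with hpq | hpq
  · obtain ⟨m, hm'⟩ := (Nat.modEq_iff_dvd' hpq).1 hm
    have : q = p + m * n := by
      have : n * m = m * n := mul_comm _ _
      omega
    rw [this]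
    exact rep_add h p m hp
  · obtain ⟨m, hm'⟩ := (Nat.modEq_iff_dvd' hpq).1 hm.symm
    have : p = q + m * n := by
      have : n * m = m * n := mul_comm _ _
      omega
    rw [this]
    exact (rep_add h q m hq).symm

theorem mw_update (k : ℕ) (a : ℕ → ℕ) (i m : ℕ) :
    mw k (Function.update a i m) =
      asm k (Function.update (fun j => List.replicate (a j) 0) i (List.replicate m 0)) := by
  unfold mw
  congr 1
  funext j
  by_cases hj : j = i
  · subst hj
    simp
  · rw [Function.update_of_ne hj, Function.update_of_ne hj]

theorem l1_update {n : ℕ} {θ : FIC} (h : RR θ [0, 0] (List.replicate (n + 2) 0)) {k : ℕ}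
    {a : ℕ → ℕ} {i m : ℕ} (hi : i ≤ k) (ha : 2 ≤ a i) (hm : 2 ≤ m) (hc : a i ≡ m [MOD n]) :
    L1 θ k a (Function.update a i m) := by
  unfold L1
  rw [mw_update, asm_update hi]
  unfold mw
  rw [asm_split hi]
  exact ((RR.refl (β := θ) _).append (rep_mod h ha hm hc)).append (RR.refl (β := θ) _)

theorem hap (trn : TrnStmt) : HapStmt := by
  intro n θ hn h
  have first : ∀ (k : ℕ) (a : ℕ → ℕ) (i : ℕ), i ≤ k → 2 ≤ a i → AbN n θ k a i := by
    intro k a i hi ha
    have h1 : L1 θ k a (Function.update a i (a i + 2 * n)) := by
      refine l1_update h hi ha (by omega) ?_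
      have : a i + 0 ≡ a i + 2 * n [MOD n] :=
        Nat.ModEq.add_left _ ((Nat.modEq_zero_iff_dvd.2 ⟨2, mul_comm _ _⟩).symm)
      simpa using this
    refine (FC.ofFIC θ).ext (fun j _ => rfl) (fun j _ => ?_) h1
    unfold ad
    by_cases hj : j = i
    · subst hj
      simp
    · simp [Function.update_of_ne hj, hj]
  refine ⟨first, ?_⟩
  intro k a c hc
  have claim : ∀ m ≤ k + 1, L1 θ k a (fun r => if r < m then c r else a r) := by
    intro m
    induction m with
    | zero =>
      intro _
      exact (FC.ofFIC θ).ext (fun j _ => rfl) (fun j _ => by simp) ((FC.ofFIC θ).refl k a)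
    | succ m ih =>
      intro hm
      have ih' := ih (by omega)
      rcases hc m (by omega) with he | ⟨h2, hmod, hab⟩
      · refine (FC.ofFIC θ).ext (fun j _ => rfl) (fun j _ => ?_) ih'
        by_cases h1 : j < m
        · rw [if_pos h1, if_pos (by omega)]
        · rw [if_neg h1]
          by_cases h3 : j < m + 1
          · have h4 : j = m := by omega
            subst h4
            rw [if_pos h3, he]
          · rw [if_neg h3]
      · have h3 : AbN n θ k (fun r => if r < m then c r else a r) m :=
          ((trn n (FC.ofFIC θ) k a m).1 _ ih').1 hab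
        have h4 : L1 θ k (fun r => if r < m then c r else a r)
            (ad n (fun r => if r < m then c r else a r) m) := h3
        have h5 : L1 θ k (ad n (fun r => if r < m then c r else a r) m)
            (Function.update (ad n (fun r => if r < m then c r else a r) m) m (c m)) := by
          apply l1_update h (by omega) _ h2
          · have e : ad n (fun r => if r < m then c r else a r) m m = a m + 2 * n := by
              simp [ad]
            rw [e]
            have : a m + 2 * n ≡ a m + 0 [MOD n] :=
              Nat.ModEq.add_left _ (Nat.modEq_zero_iff_dvd.2 ⟨2, mul_comm _ _⟩)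
            exact this.trans hmod.symm
          · have e : ad n (fun r => if r < m then c r else a r) m m = a m + 2 * n := by
              simp [ad]
            rw [e]
            omega
        have h6 := (FC.ofFIC θ).trans ih' ((FC.ofFIC θ).trans h4 h5)
        refine (FC.ofFIC θ).ext (fun j _ => rfl) (fun j _ => ?_) h6
        by_cases hj : j = m
        · subst hj
          simp
        · rw [Function.update_of_ne hj]
          unfold ad
          rw [if_neg hj, add_zero]
          show (if j < m then c j else a j) = if j < m + 1 then c j else a j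
          by_cases h7 : j < m
          · rw [if_pos h7, if_pos (by omega)]
          · rw [if_neg h7, if_neg (by omega)]
  have h9 := claim (k + 1) (le_refl _)
  refine (FC.ofFIC θ).ext (fun j _ => rfl) (fun j hj => ?_) h9
  rw [if_pos (by omega)]

end Pool.Agent.MWA.H85
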