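import Pool.Agent.MWA.StmtsP
import Pool.Agent.Helper6_MVO.SEQ

/-!
# Row mwa NRQ (port of the row NRM of MWS by helper67)

A word which is related to a block word is a block word: the simple letters are kept by CAP, their
order is kept because `xy ≈ yx` is not in the congruence (lemma `seps_keep` of the row SEQ of the
squad MVO), and the other letters are multiple letters of the block word.
-/

namespace Pool.Agent.MWA.H85

open Pool.Agent.Helper14_MV Pool.Agent.Helper2_MV Pool.Agent.MVO Pool.Agent.MWL Pool.Agent.MWS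
open Pool.Agent.MWA

theorem nrq : NrqStmt := by
  intro β θ hβ hle hθ k B v hB hr
  have hc := hβ θ hle hθ _ _ hr
  obtain ⟨p, hp⟩ : ∃ p : ℕ → Bool, p = fun c => decide (2 ≤ c ∧ c ≤ k + 1) := ⟨_, rfl⟩
  have h1 : (asm k B).filter p = seps k := by
    rw [hp]
    exact filter_sep hB.ok
  have h2 : (seps k).Perm (v.filter p) := by
    apply List.perm_iff_count.2
    intro c
    by_cases h : 2 ≤ c ∧ c ≤ k + 1
    · have e1 : (seps k).count c = 1 :=
        List.count_eq_one_of_mem (nodup_seps k) (mem_seps.2 h)
      have e2 : (v.filter p).count c = v.count c :=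
        List.count_filter (by rw [hp]; exact decide_eq_true h)
      have e3 : (asm k B).count c = 1 := count_sep hB.ok h.1 h.2
      have e4 := hc c
      rw [e3] at e4
      rw [e1, e2]
      omega
    · have e1 : (seps k).count c = 0 := List.count_eq_zero.2 (fun hm => h (mem_seps.1 hm))
      have e2 : (v.filter p).count c = 0 := by
        apply List.count_eq_zero.2
        intro hm
        have h3 := (List.mem_filter.1 hm).2
        rw [hp] at h3
        exact h (of_decide_eq_true h3)
      rw [e1, e2]
  have h3 : RR θ (seps k) (v.filter p) := by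
    have h4 := hr.filter p
    rw [h1] at h4
    exact h4
  have h4 := Pool.Agent.MVO.H6.seps_keep hθ h2 h3
  rw [hp] at h4
  obtain ⟨B', hB', hw⟩ := dec h4
  have key : ∀ c, (∃ j ≤ k, c ∈ B' j) → (∃ j ≤ k, c ∈ B j) ∧ 2 ≤ v.count c := by
    rintro c ⟨j, hj, hm⟩
    have hns : NS k c := hB' j c hm
    have h5 : c ∈ v := by
      rw [hw]
      exact mem_asm.2 (Or.inr ⟨j, hj, hm⟩)
    have h6 : 0 < v.count c := List.count_pos_iff.2 h5
    have h7 := hc c
    have h8 : 0 < (asm k B).count c := by omega
    have h9 : ∃ j ≤ k, c ∈ B j := by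
      rcases mem_asm.1 (List.count_pos_iff.1 h8) with h | h
      · exact absurd h hns
      · exact h
    obtain ⟨j', hj', hm'⟩ := h9
    have h10 : 2 ≤ (asm k B).count c := by
      rw [count_asm hns]
      exact hB.ml j' hj' c hm'
    exact ⟨⟨j', hj', hm'⟩, by omega⟩
  refine ⟨B', hw, ⟨fun j _ c hm => hB' j c hm, ?_⟩, fun c hm => (key c hm).1⟩
  intro j hj c hm
  rw [← count_asm (hB' j c hm), ← hw]
  exact (key c ⟨j, hj, hm⟩).2

end Pool.Agent.MWA.H85
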