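import Pool.Agent.MWA.StmtsQ

/-!
# Row mwa RDQ (port of the row RDC of helper86 to arbitrary period)
-/

set_option autoImplicit false

namespace Pool.Agent.MWA.H85

open Pool.Agent.Helper14_MV Pool.Agent.Helper2_MV Pool.Agent.MVO Pool.Agent.MWL Pool.Agent.MWS
open Pool.Agent.MWA

/-- **Row RDQ.** -/
theorem rdq (hlgt : LgpStmt) (hrda : RdpStmt) (hbtf : BtfStmt) (hppp : PpqStmt)
    (hlsm : LspStmt) : RdqStmt := by
  intro n β hβ hA hP hJ θ hθ k a b i j hda hdb hla hlb hji hab
  have hBs := BsP.mono hβ hθ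
  have hn : 1 ≤ n := hβ.pos
  by_cases h1 : 2 ≤ a i ∨ 2 ≤ b i
  · left
    exact Bt.mono hθ (hrda β hβ.cl hβ.r0 hA k a b i hda hdb hla hlb h1)
  rw [not_or] at h1
  have hai : a i = 1 := by
    have h2 := hla.2.1
    have h3 := h1.1
    omega
  have hbi : b i = 1 := by
    have h2 := hlb.2.1
    have h3 := h1.2
    omega
  rcases Nat.lt_or_ge j i with hj | hj
  · by_cases h5 : ∃ r < i, AbN n θ k b r
    · obtain ⟨r, hr, hbr⟩ := h5
      left
      exact hppp n β hβ hP θ hθ k a b i j r hla hlb hj hr hab hbr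
    · have h6 : ∀ r < i, ¬ AbN n θ k b r := fun r hr h => h5 ⟨r, hr, h⟩
      obtain ⟨p, hp⟩ := hlgt n θ hn hBs.ap k b i 0 hdb hlb hbi (Or.inl rfl) (AbN.mono hθ hJ) h6
        (by intro h; omega)
      exact Or.inr ⟨hj, hlsm n β hβ hJ θ hθ k a b i j p hda hla hai hj hab hp (h6 p hp.1), p, hp⟩
  · have hj' : j = i := le_antisymm hji hj
    subst hj'
    left
    have h2 : Lst k (ad n a j) j := by
      refine ⟨hla.1, ?_, ?_⟩
      · simp only [ad, if_true]
        omega
      · intro r hr hrk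
        have h3 := hla.2.2 r hr hrk
        simp only [ad, h3, if_neg (by omega : ¬ r = j)]
    have h3 : 2 ≤ deg k (ad n a j) := by
      refine le_trans hda ?_
      unfold deg
      exact Finset.sum_le_sum fun r _ => by
        simp only [ad]
        omega
    have h4 : Bt β k (ad n a j) b j := hrda β hβ.cl hβ.r0 hA k (ad n a j) b j h3 hdb h2 hlb
      (Or.inl (by simp only [ad, if_true]; omega))
    exact (hbtf θ k a (ad n a j) b b hab (θ.refl _)).2 j (Bt.mono hθ h4)

end Pool.Agent.MWA.H85
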