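import Pool.Agent.MWA.StmtsQ

/-!
# Row mwa RQ4 (port of the row RB4 of helper15 to arbitrary period)
-/

set_option autoImplicit false

namespace Pool.Agent.MWA.H85

open Pool.Agent.Helper14_MV Pool.Agent.Helper2_MV Pool.Agent.MVO Pool.Agent.MWL Pool.Agent.MWS
open Pool.Agent.MWA

theorem rq4 (h1 : Pool.Agent.MWL.TrnStmt) (h2 : Pool.Agent.MWA.UseStmt)
    (h3 : Pool.Agent.MWA.AbpStmt) (h4 : Pool.Agent.MWA.BtfStmt) (h5 : Pool.Agent.MWA.BtpStmt)
    (h6 : Pool.Agent.MWA.HdpStmt) (h7 : Pool.Agent.MWA.MvpStmt) (h8 : Pool.Agent.MWA.EqpStmt)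
    (h9 : Pool.Agent.MWA.RdqStmt) : Pool.Agent.MWA.Rq4Stmt := by
  intro n β hb hrd hS θ hle hnc k a b i j hda hdb hLa hLb hji hAj hnj
  have hA1 := hS.a
  have hP := hS.p
  have hJ0 := hS.j
  have hJ1 := hS.j'
  have hC := hS.c
  have hn : 1 ≤ n := hb.pos
  rcases h9 n β hb hA1 hP hJ0 θ hle k a b i j hda hdb hLa hLb hji hAj with
    h | ⟨hjlt, ⟨s, hsi, hAs⟩, p, hT⟩
  · exact Or.inl h
  obtain ⟨hpi, hik, hbr⟩ := hT
  by_cases hp : AbN n θ k a p
  · left
    have hB : Bt β k b (ad n a p) i := by
      refine (h2 β hb.cl).1 1 1 2 1 k p i b (ad n a p) one_pos one_pos le_rfl (by norm_num) hC hpi.le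
        hik ?_ ?_
      · intro t ht
        rw [hbr t ht]
        by_cases h1t : t = p
        · have h2t : t ≠ i := by omega
          simp [h1t, hpi.ne]
        · by_cases h2t : t = i
          · simp [h2t, hpi.ne']
          · simp [h1t, h2t]
      · intro t ht
        show _ ≤ a t + if t = p then 2 * n else 0
        have h3t : (if t = i then 1 else 0) ≤ a t := by
          by_cases h2t : t = i
          · rw [if_pos h2t, h2t]
            exact Nat.one_le_iff_ne_zero.2 hLa.2.1
          · rw [if_neg h2t]
            exact Nat.zero_le _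
        by_cases h4t : t = p
        · rw [if_pos h4t, if_pos h4t]
          omega
        · rw [if_neg h4t, if_neg h4t]
          omega
    have hB2 : Bt θ k (ad n a p) b i := Bt.mono hle ((h5 β hb.cl hb.r0).2.1 k b (ad n a p) i hB)
    exact (h4 θ k a (ad n a p) b b hp (RR.refl _)).2 i hB2
  · right
    have hjp : j ≠ p := by
      rintro rfl
      exact hp hAj
    have hAsθ : AbN n θ k a s := AbN.mono hle hAs
    have hsp : s ≠ p := by
      rintro rfl
      exact hp hAsθ
    have haj : a j = 0 := by
      by_contra haj
      apply hnj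
      rcases le_or_gt j s with hjs | hjs
      · exact h6 n β hn hrd k a j s hjs (hsi.le.trans hik) haj hAs
      · have hx := (h3 n β).2 1 1 1 k s j i 1 (ad n a s) (by norm_num) hJ1 hjs.le hji hik ?_
        · have e : (if (1 : ℕ) = 0 then s else if (1 : ℕ) = 1 then j else i) = j := by simp
          rw [e] at hx
          exact ((h1 n (FC.ofFIC β) k a j).1 (ad n a s) hAs).2 hx
        · intro t ht
          show _ ≤ a t + if t = s then 2 * n else 0
          have hai := hLa.2.1
          by_cases h1t : t = s
          · have h2t : t ≠ j := by omega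
            have h3t : t ≠ i := by omega
            simp [h1t, hjs.ne, hsi.ne]
            omega
          · by_cases h2t : t = j
            · subst h2t
              have h3t : t ≠ i := by omega
              simp [h1t, h3t]
              omega
            · by_cases h3t : t = i
              · subst h3t
                simp [h1t, h2t]
                omega
              · simp [h1t, h2t, h3t]
    have hside : (j < p ∧ s < p) ∨ (p < j ∧ p < s) := by
      by_contra hcon
      apply hp
      refine h7 n θ hn (hb.mono hle).ap k a j p s ?_ (hji.trans hik) (hsi.le.trans hik) haj hAj hAsθ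
      omega
    intro θ' hle' hB
    refine h8 n β hb k a b i j s hda hdb hLa hLb hjlt hsi.le hAs ?_ θ' hle' hB
    intro r hr hrs
    have hr1 : r ≠ p := by omega
    have hr2 : r < i := by omega
    rw [hbr r (hr2.le.trans hik)]
    simp [hr1, hr2.ne]

end Pool.Agent.MWA.H85
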