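import Pool.Agent.MWA.StmtsB
import Pool.Agent.MWA.StmtsQ
import Pool.Agent.MWZ.Stmts

set_option autoImplicit false

/-! # Squad MWA: the block theorem `SufA` (helper85) -/

namespace Pool.Agent.MWA.H85

open Pool.Agent.Helper14_MV Pool.Agent.Helper2_MV Pool.Agent.MVO Pool.Agent.MWL Pool.Agent.MWS
  Pool.Agent.MWA

theorem sufA (hR : FprStmt) (hD : FpdStmt) (hN : CnpStmt) (hE : CneStmt) :
    Pool.Agent.MWZ.SufA := by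
  intro n β hn hper hs
  obtain ⟨h1, h2, h0, hsys⟩ := hs
  have hap : RR β [0, 0] (List.replicate (n + 2) 0) := hper
  have hcl : ClA β := ⟨h1, h2⟩
  have hb : BsP n β := ⟨hn, hcl, h0, hap⟩
  obtain ⟨eA1, eC2, eC4, eP, eQ, eC, eC5, eB7, eB8⟩ := hE β hcl
  obtain ⟨nG, nL, nD, nJ, nJ', nK'⟩ := hN n β hn hap
  apply distF_modF
  rcases hsys with ⟨hr, hs⟩ | ⟨hr, hs⟩
  · have hr' : RrP n β := hr
    refine hR n β hb hr' ?_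
    rcases hs with ⟨g, l⟩ | ⟨j, c⟩ | a | ⟨l, c⟩
    · refine Or.inl ⟨nG.1 g, ?_⟩
      exact (nL.1 l).2.2
    · exact Or.inr (Or.inl ⟨nJ.1 j, eC2 c⟩)
    · exact Or.inr (Or.inr (Or.inl ⟨eA1 a⟩))
    · have hl := nL.1 l
      exact Or.inr (Or.inr (Or.inr ⟨hl.2.2, nD ⟨hl.1, hl.2.2⟩, eC4 c⟩))
  · have hr' : RdP n β := hr
    refine hD n β hb hr' ?_
    rcases hs with ⟨j, a, p, q⟩ | ⟨k, a, p, c⟩ | ⟨g, k, p, c⟩ | ⟨a, b⟩
    · exact Or.inl ⟨eA1 a, eP p, nJ'.1 j, eQ q⟩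
    · have hk := nK'.1 k
      exact Or.inr (Or.inl ⟨eA1 a, eP p, hk.1, hk.2, eC c⟩)
    · have hk := nK'.1 k
      exact Or.inr (Or.inr (Or.inl ⟨nG.1 g, hk.1, hk.2, eP p, eC5 c⟩))
    · exact Or.inr (Or.inr (Or.inr ⟨eB7 a, eB8 b⟩))

end Pool.Agent.MWA.H85
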