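import Pool.Agent.MWZ.Stmts
import Pool.Agent.Helper85_MWA.SUFA
import Pool.Agent.Helper28_MVO.FMA
import Pool.Agent.Helper91_MVO.NFA
import Pool.Agent.Helper22_MWA.TNF
import Pool.Agent.Helper75_MWA.GW2
import Pool.Agent.Helper35_MVO.FAA
import Pool.Agent.Helper37_MWA.W2R
import Pool.Agent.Helper37_MWA.BTP
import Pool.Agent.Helper75_MWA.CPN
import Pool.Agent.Helper5_MVO.ONE
import Pool.Agent.Helper97_MVO.GAA
import Pool.Agent.Helper60_MVO.ALN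
import Pool.Agent.Helper89_MWA.TYQ
import Pool.Agent.Helper92_MVO.SWA
import Pool.Agent.Helper10_MVO.BUB
import Pool.Agent.Helper74_MWA.W2X
import Pool.Agent.Helper43_MWA.ORQ
import Pool.Agent.Helper36_MWA.D2Q
import Pool.Agent.Helper85_MWA.NRQ
import Pool.Agent.Helper45_MWA.CHQ
import Pool.Agent.Helper99_MWA.OLQ
import Pool.Agent.Helper77_MWL.TRN
import Pool.Agent.Helper85_MWA.HAP
import Pool.Agent.Helper37_MWS.CHK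
import Pool.Agent.Helper13_MWA.BTF
import Pool.Agent.Helper1_MWA.SPM
import Pool.Agent.Helper10_MWA.BTU
import Pool.Agent.Helper53_MWA.BTR
import Pool.Agent.Helper94_MWA.SPQ
import Pool.Agent.Helper51_MWA.JPQ
import Pool.Agent.Helper23_MWA.MJQ
import Pool.Agent.Helper13_MWS.TLP
import Pool.Agent.Helper38_MVO.REN
import Pool.Agent.Helper39_MWA.BLQ
import Pool.Agent.Helper53_MWA.MUX
import Pool.Agent.Helper31_MVO.COM
import Pool.Agent.Helper85_MWA.CMN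
import Pool.Agent.Helper49_MWA.DGA
import Pool.Agent.Helper64_MWA.MUY
import Pool.Agent.Helper43_MWA.DGB
import Pool.Agent.Helper75_MWA.DGP
import Pool.Agent.Helper27_MWS.GLD
import Pool.Agent.Helper3_MWA.SFQ
import Pool.Agent.Helper54_MWL.HVP
import Pool.Agent.Helper22_MWL.ABS
import Pool.Agent.Helper7_MWL.KEY
import Pool.Agent.Helper51_MWL.DMX
import Pool.Agent.Helper97_MWL.ARR
import Pool.Agent.Helper75_MWL.TA1
import Pool.Agent.Helper19_MWL.TA2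
import Pool.Agent.Helper52_MWL.TAB
import Pool.Agent.Helper45_MWL.RMV
import Pool.Agent.Helper90_MWL.CLO
import Pool.Agent.Helper15_MWL.FLB
import Pool.Agent.Helper88_MWL.PRM
import Pool.Agent.Helper3_MWL.JPR
import Pool.Agent.Helper69_MWL.JFC
import Pool.Agent.Helper34_MWL.LAW
import Pool.Agent.Helper30_MWL.NDF
import Pool.Agent.Helper23_MWA.NDQ
import Pool.Agent.Helper24_MWA.ORN
import Pool.Agent.Helper6_MWA.ABP
import Pool.Agent.Helper30_MWA.HRP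
import Pool.Agent.Helper59_MWA.LGP
import Pool.Agent.Helper69_MWA.RCP
import Pool.Agent.Helper47_MWA.RP1
import Pool.Agent.Helper5_MWA.USE
import Pool.Agent.Helper45_MWA.EQP
import Pool.Agent.Helper98_MWA.RP2
import Pool.Agent.Helper59_MWA.RP3
import Pool.Agent.Helper16_MWA.MVP
import Pool.Agent.Helper26_MWA.RP4
import Pool.Agent.Helper7_MWA.FPR
import Pool.Agent.Helper95_MWL.REV
import Pool.Agent.Helper46_MWA.ODN
import Pool.Agent.Helper13_MWA.RDP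
import Pool.Agent.Helper2_MWA.PPQ
import Pool.Agent.Helper2_MWA.LSP
import Pool.Agent.Helper85_MWA.RDQ
import Pool.Agent.Helper19_MWA.RQ3
import Pool.Agent.Helper14_MWA.HDP
import Pool.Agent.Helper85_MWA.RQ4
import Pool.Agent.Helper92_MWA.RQ5
import Pool.Agent.Helper81_MWA.RQ7
import Pool.Agent.Helper81_MWA.FPD
import Pool.Agent.Helper80_MWA.CNP
import Pool.Agent.Helper7_MWA.CNE

/-! # Block MWA: assembly (MP_23468a_al) -/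

set_option autoImplicit false

namespace Pool.Agent.MWA.Fin

theorem hmvo_fma : Pool.Agent.MVO.FmaStmt :=
  Pool.Agent.MVO.H28.fma

theorem hmvo_nfa : Pool.Agent.MVO.NfaStmt :=
  Pool.Agent.MVO.H91.nfa
    hmvo_fma

theorem hmwa_tnf : Pool.Agent.MWA.TnfStmt :=
  Pool.Agent.MWA.H22.tnf
    hmvo_nfa

theorem hmwa_gw2 : Pool.Agent.MWA.Gw2Stmt :=
  Pool.Agent.MWA.H75.gw2
    hmwa_tnf

theorem hmvo_faa : Pool.Agent.MVO.FaaStmt :=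
  Pool.Agent.MVO.H35.faa
    hmvo_nfa

theorem hmwa_w2r : Pool.Agent.MWA.W2rStmt :=
  Pool.Agent.MWA.H37.w2r
    hmwa_tnf

theorem hmwa_btp : Pool.Agent.MWA.BtpStmt :=
  Pool.Agent.MWA.H37.btp
    hmvo_faa hmwa_w2r

theorem hmwa_cpn : Pool.Agent.MWA.CpnStmt :=
  Pool.Agent.MWA.H75.cpn
    hmwa_gw2 hmwa_btp

theorem hmvo_one : Pool.Agent.MVO.OneStmt :=
  Pool.Agent.MVO.H5.one

theorem hmvo_gaa : Pool.Agent.MVO.GaaStmt :=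
  Pool.Agent.MVO.H97.gaa
    hmvo_nfa

theorem hmvo_aln : Pool.Agent.MVO.AlnStmt :=
  Pool.Agent.MVO.H60.aln

theorem hmwa_tyq : Pool.Agent.MWA.TyqStmt :=
  Pool.Agent.MWA.H89Q.tyq
    hmvo_gaa hmvo_aln

theorem hmvo_swa : Pool.Agent.MVO.SwaStmt :=
  Pool.Agent.Helper92_MVO.swa
    hmvo_nfa

theorem hmvo_bub : Pool.Agent.MVO.BubStmt :=
  Pool.Agent.MVO.H10.bub

theorem hmwa_w2x : Pool.Agent.MWA.W2xStmt :=
  Pool.Agent.MWA.H74.w2x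
    hmwa_w2r

theorem hmwa_orq : Pool.Agent.MWA.OrqStmt :=
  Pool.Agent.MWA.H43.orq
    hmvo_swa hmvo_bub hmwa_w2x hmwa_btp

theorem hmwa_d2q : Pool.Agent.MWA.D2qStmt :=
  Pool.Agent.MWA.H36Q.d2q
    hmvo_one hmwa_tyq hmwa_orq

theorem hmwa_nrq : Pool.Agent.MWA.NrqStmt :=
  Pool.Agent.MWA.H85.nrq

theorem hmwa_chq : Pool.Agent.MWA.ChqStmt :=
  Pool.Agent.MWA.H45.chq
    hmwa_nrq

theorem hmwa_olq : Pool.Agent.MWA.OlqStmt :=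
  Pool.Agent.MWA.H99.olq
    hmvo_one hmwa_chq

theorem hmwl_trn : Pool.Agent.MWL.TrnStmt :=
  Pool.Agent.MWL.H77.trn

theorem hmwa_hap : Pool.Agent.MWA.HapStmt :=
  Pool.Agent.MWA.H85.hap
    hmwl_trn

theorem hmws_chk : Pool.Agent.MWS.ChkStmt :=
  Pool.Agent.MWS.H37.chk

theorem hmwa_btf : Pool.Agent.MWA.BtfStmt :=
  Pool.Agent.MWA.H13.btf
    hmws_chk

theorem hmwa_spm : Pool.Agent.MWA.SpmStmt :=
  Pool.Agent.MWA.H1.spm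

theorem hmwa_btu : Pool.Agent.MWA.BtuStmt :=
  Pool.Agent.MWA.H10.btu
    hmvo_faa hmwa_spm

theorem hmwa_btr : Pool.Agent.MWA.BtrStmt :=
  Pool.Agent.MWA.H53.btr
    hmwa_hap hmwa_btf hmwa_btu

theorem hmwa_spq : Pool.Agent.MWA.SpqStmt :=
  Pool.Agent.MWA.H94Q.spq
    hmwl_trn hmvo_one hmwa_chq hmwa_hap hmwa_gw2 hmwa_w2x hmwa_btf hmwa_btp hmwa_btr

theorem hmwa_jpq : Pool.Agent.MWA.JpqStmt :=
  Pool.Agent.MWA.H51P.jpq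
    hmwl_trn hmwa_hap hmwa_btf hmwa_btp hmwa_btu hmwa_spq

theorem hmwa_mjq : Pool.Agent.MWA.MjqStmt :=
  Pool.Agent.MWA.H23.mjq
    hmwa_olq hmwa_jpq hmwa_gw2 hmwa_w2r hmwa_w2x hmwa_btf

theorem hmws_tlp : Pool.Agent.MWS.TlpStmt :=
  Pool.Agent.MWS.H13.tlp

theorem hmvo_ren : Pool.Agent.MVO.RenStmt :=
  Pool.Agent.MVO.H38.ren

theorem hmwa_blq : Pool.Agent.MWA.BlqStmt :=
  Pool.Agent.MWA.H39.blq
    hmvo_ren hmwa_nrq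

theorem hmwa_mux : Pool.Agent.MWA.MuxStmt :=
  Pool.Agent.MWA.H53.mux

theorem hmvo_com : Pool.Agent.MVO.ComStmt :=
  Pool.Agent.MVO.H31.com

theorem hmwa_cmn : Pool.Agent.MWA.CmnStmt :=
  Pool.Agent.MWA.H85.cmn
    hmvo_com

theorem hmwa_od1 : Pool.Agent.MWA.Od1Stmt :=
  Pool.Agent.MWA.H49.od1

theorem hmwa_dga : Pool.Agent.MWA.DgaStmt :=
  Pool.Agent.MWA.H49.dga
    hmwa_cmn hmwa_od1

theorem hmwa_muy : Pool.Agent.MWA.MuyStmt :=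
  Pool.Agent.MWA.H64.muy
    hmwa_mux

theorem hmwa_dgb : Pool.Agent.MWA.DgbStmt :=
  Pool.Agent.MWA.H43.dgb
    hmwa_hap hmwa_cmn hmwa_mux hmwa_muy

theorem hmwa_dgp : Pool.Agent.MWA.DgpStmt :=
  Pool.Agent.MWA.H75.dgp
    hmwa_mux hmwa_dga hmwa_dgb

theorem hmws_gld : Pool.Agent.MWS.GldStmt :=
  Pool.Agent.MWS.H27.gld

theorem hmwa_sfq : Pool.Agent.MWA.SfqStmt :=
  Pool.Agent.MWA.H3.sfq
    hmwa_cpn hmwa_d2q hmwa_mjq hmws_tlp hmwa_blq hmwa_dgp hmws_gld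

theorem hmwl_hvp : Pool.Agent.MWL.HvpStmt :=
  Pool.Agent.MWL.H54.hvp

theorem hmwl_abs : Pool.Agent.MWL.AbsStmt :=
  Pool.Agent.MWL.H22.abs
    hmwl_trn hmwl_hvp

theorem hmwl_key : Pool.Agent.MWL.KeyStmt :=
  Pool.Agent.MWL.H7.key
    hmwl_trn hmwl_hvp hmwl_abs

theorem hmwl_dmx : Pool.Agent.MWL.DmxStmt :=
  Pool.Agent.MWL.H51.dmx
    hmwl_hvp

theorem hmwl_arr : Pool.Agent.MWL.ArrStmt :=
  Pool.Agent.MWL.H97.arr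
    hmwl_trn hmwl_hvp hmwl_abs

theorem hmwl_ta1 : Pool.Agent.MWL.Ta1Stmt :=
  Pool.Agent.MWL.H75.ta1
    hmwl_trn hmwl_hvp hmwl_abs hmwl_arr

theorem hmwl_ta2 : Pool.Agent.MWL.Ta2Stmt :=
  Pool.Agent.MWL.H19.ta2
    hmwl_trn hmwl_hvp hmwl_abs hmwl_arr hmwl_ta1

theorem hmwl_tab : Pool.Agent.MWL.TabStmt :=
  Pool.Agent.MWL.H52.tab
    hmwl_hvp hmwl_ta1 hmwl_ta2

theorem hmwl_rmv : Pool.Agent.MWL.RmvStmt :=
  Pool.Agent.MWL.H45.rmv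
    hmwl_hvp

theorem hmwl_clo : Pool.Agent.MWL.CloStmt :=
  Pool.Agent.MWL.H90.clo
    hmwl_trn hmwl_hvp hmwl_abs hmwl_rmv

theorem hmwl_flb : Pool.Agent.MWL.FlbStmt :=
  Pool.Agent.MWL.H15.flb
    hmwl_key hmwl_trn hmwl_tab hmwl_rmv hmwl_clo

theorem hmwl_prm : Pool.Agent.MWL.PrmStmt :=
  Pool.Agent.MWL.H88.prm
    hmwl_hvp hmwl_arr hmwl_ta1 hmwl_ta2

theorem hmwl_jpr : Pool.Agent.MWL.JprStmt :=
  Pool.Agent.MWL.H3.jpr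
    hmwl_trn hmwl_hvp hmwl_abs hmwl_key hmwl_prm

theorem hmwl_jfc : Pool.Agent.MWL.JfcStmt :=
  Pool.Agent.MWL.H69.jfc
    hmwl_rmv

theorem hmwl_law : Pool.Agent.MWL.LawStmt :=
  Pool.Agent.MWL.H34.law
    hmwl_dmx hmwl_flb hmwl_jpr hmwl_jfc

theorem hmwl_ndf : Pool.Agent.MWL.NdfStmt :=
  Pool.Agent.MWL.H30.ndf

theorem hmwa_ndq : Pool.Agent.MWA.NdqStmt :=
  Pool.Agent.MWA.H23.ndq
    hmwl_ndf

theorem hmwa_orn : Pool.Agent.MWA.OrnStmt :=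
  Pool.Agent.MWA.H24.orn
    hmwl_key hmwl_law hmwa_ndq

theorem hmwa_abp : Pool.Agent.MWA.AbpStmt :=
  Pool.Agent.MWA.H6.abp
    hmwl_trn

theorem hmwa_hrp : Pool.Agent.MWA.HrpStmt :=
  Pool.Agent.MWA.H30.hrp
    hmwl_trn

theorem hmwa_lgp : Pool.Agent.MWA.LgpStmt :=
  Pool.Agent.MWA.H59.lgp
    hmwa_hap hmwa_abp

theorem hmwa_rcp : Pool.Agent.MWA.RcpStmt :=
  Pool.Agent.MWA.H69P.rcp
    hmwl_trn hmwa_hap hmwa_hrp hmwa_lgp hmwa_btf hmwa_btp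

theorem hmwa_rp1 : Pool.Agent.MWA.Rp1Stmt :=
  Pool.Agent.MWA.H47.rp1
    hmwl_trn hmwa_abp hmwa_rcp

theorem hmwa_use : Pool.Agent.MWA.UseStmt :=
  Pool.Agent.MWA.H5.use
    hmwa_btu

theorem hmwa_eqp : Pool.Agent.MWA.EqpStmt :=
  Pool.Agent.MWA.H45.eqp
    hmwa_btu hmwa_btr

theorem hmwa_rp2 : Pool.Agent.MWA.Rp2Stmt :=
  Pool.Agent.MWA.H98.rp2
    hmwl_trn hmwa_use hmwa_btf hmwa_btp hmwa_eqp hmwa_rcp

theorem hmwa_rp3 : Pool.Agent.MWA.Rp3Stmt :=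
  Pool.Agent.MWA.H59.rp3
    hmwa_hap hmwa_hrp hmwa_use hmwa_btf hmwa_btp

theorem hmwa_mvp : Pool.Agent.MWA.MvpStmt :=
  Pool.Agent.MWA.H16.mvp
    hmwl_trn hmwa_hap

theorem hmwa_rp4 : Pool.Agent.MWA.Rp4Stmt :=
  Pool.Agent.MWA.H26.rp4
    hmwl_trn hmwa_use hmwa_abp hmwa_btf hmwa_btp hmwa_mvp hmwa_eqp hmwa_rcp

theorem fpr : Pool.Agent.MWA.FprStmt :=
  Pool.Agent.MWA.H7.fpr
    hmwa_sfq hmwa_cpn hmwa_orn hmwa_rp1 hmwa_rp2 hmwa_rp3 hmwa_rp4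

theorem hmwl_rev : Pool.Agent.MWL.RevStmt :=
  Pool.Agent.MWL.H95.rev

theorem hmwa_odn : Pool.Agent.MWA.OdnStmt :=
  Pool.Agent.MWA.H46.odn
    hmwl_key hmwl_law hmwl_rev hmwa_ndq

theorem hmwa_rdp : Pool.Agent.MWA.RdpStmt :=
  Pool.Agent.MWA.H13.rdp
    hmwa_use hmwa_btp

theorem hmwa_ppq : Pool.Agent.MWA.PpqStmt :=
  Pool.Agent.MWA.H2.ppq
    hmwa_use hmwa_btf hmwa_btp

theorem hmwa_lsp : Pool.Agent.MWA.LspStmt :=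
  Pool.Agent.MWA.H2.lsp
    hmwl_trn hmwa_hap hmwa_lgp

theorem hmwa_rdq : Pool.Agent.MWA.RdqStmt :=
  Pool.Agent.MWA.H85.rdq
    hmwa_lgp hmwa_rdp hmwa_btf hmwa_ppq hmwa_lsp

theorem hmwa_rq3 : Pool.Agent.MWA.Rq3Stmt :=
  Pool.Agent.MWA.H19.rq3
    hmwa_hap hmwa_use hmwa_btf hmwa_btp hmwa_eqp hmwa_rdq

theorem hmwa_hdp : Pool.Agent.MWA.HdpStmt :=
  Pool.Agent.MWA.H14.hdp
    hmwl_trn

theorem hmwa_rq4 : Pool.Agent.MWA.Rq4Stmt :=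
  Pool.Agent.MWA.H85.rq4
    hmwl_trn hmwa_use hmwa_abp hmwa_btf hmwa_btp hmwa_hdp hmwa_mvp hmwa_eqp hmwa_rdq

theorem hmwa_rq5 : Pool.Agent.MWA.Rq5Stmt :=
  Pool.Agent.MWA.H92.rq5
    hmwl_trn hmwa_hap hmwa_use hmwa_abp hmwa_btf hmwa_btp hmwa_lgp hmwa_ppq hmwa_lsp

theorem hmwa_rq7 : Pool.Agent.MWA.Rq7Stmt :=
  Pool.Agent.MWA.H81.rq7
    hmwa_hap hmwa_btu hmwa_use hmwa_btf hmwa_btp hmwa_btr hmwa_rdp

theorem fpd : Pool.Agent.MWA.FpdStmt :=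
  Pool.Agent.MWA.H81.fpd
    hmwa_sfq hmwa_cpn hmwa_odn hmwa_rq3 hmwa_rq4 hmwa_rq5 hmwa_rq7

theorem cnp : Pool.Agent.MWA.CnpStmt :=
  Pool.Agent.MWA.H80.cnp
    hmwl_trn hmwa_hap

theorem cne : Pool.Agent.MWA.CneStmt :=
  Pool.Agent.MWA.H7.cne
    hmwa_w2x

/-- **SUFFICIENCY over `S1`, `S2`, all periods**, without hypotheses. -/
theorem sufA_final : Pool.Agent.MWZ.SufA :=
  Pool.Agent.MWA.H85.sufA fpr fpd cnp cne

end Pool.Agent.MWA.Fin
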