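import Pool.Agent.MWA.StmtsP

/-!
# Row mwa CMN: commutative congruences are given by the numbers of occurrences
-/

set_option autoImplicit false

namespace Pool.Agent.MWA.H85

open Pool.Agent.Helper14_MV Pool.Agent.Helper2_MV Pool.Agent.MVO Pool.Agent.MWL Pool.Agent.MWS
open Pool.Agent.MWA

/-- the number of occurrences in a gathered block -/
theorem count_gbn (n : ℕ → ℕ) (D : List ℕ) (c : ℕ) : (gb n D).count c = n c * D.count c := by
  induction D with
  | nil => simp [gb]
  | cons a D ih =>
    have h1 : gb n (a :: D) = List.replicate (n a) a ++ gb n D := rfl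
    rw [h1, List.count_append, ih, List.count_replicate, List.count_cons]
    by_cases h : a = c
    · subst h
      simp
      ring
    · simp [h]

theorem gb_rel {θ : FIC} (n m : ℕ → ℕ)
    (h : ∀ c, RR θ (List.replicate (n c) 0) (List.replicate (m c) 0)) (F : List ℕ) :
    RR θ (gb n F) (gb m F) := by
  induction F with
  | nil => exact RR.refl _
  | cons a F ih =>
    have h1 := (h a).sub (fun _ => [a])
    have e : ∀ q : ℕ, (List.replicate q 0).flatMap (fun _ => [a]) = List.replicate q a := by
      intro q
      induction q with
      | zero => rfl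
      | succ q ihq => simp [List.replicate_succ, ihq]
    rw [e, e] at h1
    exact h1.append ih

/-- **CMN** -/
theorem cmn (com : MVO.ComStmt) : CmnStmt := by
  intro θ hnc u v huv
  have hc : RR θ [0, 1] [1, 0] := not_not.1 hnc
  have key : ∀ w : List ℕ, (∀ c ∈ w, c ∈ u ++ v) →
      RR θ w (gb (fun c => w.count c) (u ++ v).dedup) := by
    intro w hw
    refine com θ _ _ hc fun c => ?_
    rw [count_gbn]
    by_cases h : c ∈ w
    · rw [List.count_eq_one_of_mem (List.nodup_dedup _) (List.mem_dedup.2 (hw c h)), mul_one]
    · rw [List.count_eq_zero_of_not_mem h, zero_mul]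
  have h1 := key u fun c h => List.mem_append_left v h
  have h2 := key v fun c h => List.mem_append_right u h
  have h3 := gb_rel (θ := θ) (fun c => u.count c) (fun c => v.count c) huv (u ++ v).dedup
  exact θ.trans h1 (θ.trans h3 h2.symm)

end Pool.Agent.MWA.H85
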